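import Pool.Agent.BQN.Low
import Pool.Agent.Q5U.UpperBound

/-!
# The minimal number of variables of universal forms over biquadratic fields is five

The smallest `n` such that some totally real biquadratic field `K` admits a classical, totally
positive definite, universal `n`-ary quadratic form over `𝓞 K` is `5`.

* Upper bound: an explicit universal quinary form over `ℚ(√3, √5)` (`Pool/Agent/Q5U`).
* Lower bound: over no totally real biquadratic field is there a universal form in at most four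
  variables (`Pool/Agent/BQN`).
-/

namespace Pool.Agent.Results.MP_75bedd_nt.MinimumIsFive

open NumberField Matrix

/-- `K` is a totally real biquadratic field `ℚ(√p, √q)`: it has degree `4` over `ℚ` and contains
square roots of two distinct squarefree integers `p, q > 1`. -/
def IsBiquadratic (K : Type) [Field K] [NumberField K] : Prop :=
  Module.finrank ℚ K = 4 ∧ ∃ p q : ℕ, Squarefree p ∧ Squarefree q ∧ 1 < p ∧ 1 < q ∧ p ≠ q ∧
    (∃ a : K, a ^ 2 = (p : K)) ∧ (∃ b : K, b ^ 2 = (q : K))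

/-- There is a classical, totally positive definite, universal `n`-ary quadratic form `xᵀ A x` over
the ring of integers of `K`. -/
def HasUniversalForm (K : Type) [Field K] [NumberField K] (n : ℕ) : Prop :=
  ∃ A : Matrix (Fin n) (Fin n) (𝓞 K), A.IsSymm ∧
    (∀ x : Fin n → 𝓞 K, x ≠ 0 → ∀ τ : K →+* ℝ, 0 < τ ((x ⬝ᵥ A *ᵥ x : 𝓞 K) : K)) ∧
    (∀ α : 𝓞 K, (∀ τ : K →+* ℝ, 0 < τ (α : K)) → ∃ x : Fin n → 𝓞 K, x ⬝ᵥ A *ᵥ x = α)

/-- The minimum of Q1 is `5`. -/
theorem result : IsLeast {n : ℕ | ∃ (K : Type) (_ : Field K) (_ : NumberField K),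
    IsBiquadratic K ∧ HasUniversalForm K n} 5 := by
  constructor
  · obtain ⟨K, iF, iN, hK, ⟨r, hr⟩, ⟨s, hs⟩, hA⟩ := Pool.Agent.Q5U.main
    refine ⟨K, iF, iN, ⟨hK, 3, 5, Nat.prime_three.squarefree, Nat.prime_five.squarefree,
      by norm_num, by norm_num, by norm_num, ⟨r, ?_⟩, ⟨s, ?_⟩⟩, hA⟩
    · rw [hr]; norm_num
    · rw [hs]; norm_num
  · rintro n ⟨K, iF, iN, ⟨hK, p, q, hp, hq, hp1, hq1, hpq, hpK, hqK⟩, A, h1, h2, h3⟩
    by_contra hn
    obtain ⟨B, hB⟩ := BQN.four_of_le (by omega) (A := A) ⟨h1, h2, h3⟩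
    exact BQN.no_quaternary hp hq hp1 hq1 hpq hK hpK hqK hB

end Pool.Agent.Results.MP_75bedd_nt.MinimumIsFive
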